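import Pool.Agent.Helper1_PRS.Stmts

/-! PRS, module CLA: transfer of a vector field through a node substitution. -/

set_option autoImplicit false

namespace Pool.Agent.PRS.H39

open MvPolynomial

theorem cla : ClaStmt := by
  intro N i j δ θ h
  have h1 : ∀ P, node i j (δ P) = θ (node i j P) := by
    intro P
    induction P using MvPolynomial.induction_on with
    | C a =>
      have e1 : (C a : S N) = algebraMap ℚ (S N) a := rfl
      rw [e1, Derivation.map_algebraMap, map_zero, AlgHom.commutes, Derivation.map_algebraMap]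
    | add p q hp hq => rw [map_add, map_add, map_add, map_add, hp, hq]
    | mul_X p v hp =>
      rw [Derivation.leibniz, map_add, map_mul (node i j) p (X v), Derivation.leibniz, smul_eq_mul,
        smul_eq_mul, smul_eq_mul, smul_eq_mul, map_mul, map_mul, hp, h v]
  refine ⟨h1, fun h2 ν P hP => ?_⟩
  rw [h1]
  obtain ⟨R, hR⟩ := hP
  obtain ⟨Q, hQ⟩ := h2
  rw [hR, Derivation.leibniz, smul_eq_mul, smul_eq_mul, Derivation.leibniz_pow, hQ, nsmul_eq_mul,
    smul_eq_mul]
  rcases ν with _ | ν
  · rw [pow_zero]
    exact one_dvd _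
  · refine ⟨θ R + ((ν + 1 : ℕ) : S N) * R * Q, ?_⟩
    rw [Nat.add_sub_cancel]
    ring

end Pool.Agent.PRS.H39
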